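import Pool.Agent.H688R3.Paging.Main

set_option autoImplicit false

/-!
# More lookahead does not always lower the comparative ratio of paging

The second question for all parameters.  For memory size `k ≥ 1`, a universe with more than `k` pages
and all initial contents: extra lookahead strictly lowers the comparative ratio against the class with
lookahead `l` for all `i < j < l` only in the case `l = 2`, `k ≥ 3`.

Definitions (starting library `Pool.Agent.H688R3.Paging.Basic`): `𝓛 k S₀ i` (the class of all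
deterministic paging algorithms with memory size `k`, initial contents `S₀` and lookahead `i`),
`comparativeRatio`.  The exact value of the comparative ratio is the starting result
`MP_9bbf37_lc.ExactComparativeRatio`.
-/

open scoped ENNReal

namespace Pool.Agent.Results.MP_9bbf37_lc.LookaheadNotStrict

open Pool.Agent.H688R3.Paging

theorem ceil_eq (i l : ℕ) : ⌈((l : ℝ) + 1) / ((i : ℝ) + 1)⌉₊ = l / (i + 1) + 1 := by
  rw [Nat.ceil_eq_iff (Nat.succ_ne_zero _)]
  have h1 := Nat.div_add_mod l (i + 1)
  have h2 := Nat.mod_lt l (Nat.succ_pos i)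
  have h3 : ((i : ℝ) + 1) * ((l / (i + 1) : ℕ) : ℝ) + ((l % (i + 1) : ℕ) : ℝ) = l := by
    exact_mod_cast h1
  have h4 : ((l % (i + 1) : ℕ) : ℝ) + 1 ≤ (i : ℝ) + 1 := by exact_mod_cast h2
  have h5 : (0 : ℝ) ≤ ((l % (i + 1) : ℕ) : ℝ) := by positivity
  have h6 : (0 : ℝ) < (i : ℝ) + 1 := by positivity
  constructor
  · rw [Nat.succ_sub_one, lt_div_iff₀ h6]
    nlinarith
  · rw [div_le_iff₀ h6]
    push_cast
    nlinarith

/-- For every memory size `k ≥ 1`, every universe with more than `k` pages and all initial contents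
`S₀`: for all `l ≥ 3` the classes with lookahead `l - 2` and `l - 1` have the same comparative ratio
against the class with lookahead `l`; and for `l ≥ 2` the comparative ratio against the class with
lookahead `l` is strictly decreasing for all lookaheads `i < j < l` if and only if `l = 2` and `k ≥ 3`. -/
theorem result {U : Type} [DecidableEq U] {k : ℕ} (hk : 1 ≤ k)
    (hU : ∃ P : Finset U, k < P.card) {S₀ : Finset U} (hS : S₀.card ≤ k) :
    (∀ l, 3 ≤ l → comparativeRatio (𝓛 k S₀ (l - 2)) (𝓛 k S₀ l) =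
        comparativeRatio (𝓛 k S₀ (l - 1)) (𝓛 k S₀ l)) ∧
      ∀ l, 2 ≤ l → ((∀ i j, i < j → j < l → comparativeRatio (𝓛 k S₀ j) (𝓛 k S₀ l) <
        comparativeRatio (𝓛 k S₀ i) (𝓛 k S₀ l)) ↔ l = 2 ∧ 3 ≤ k) := by
  have key : ∀ i l, comparativeRatio (𝓛 k S₀ i) (𝓛 k S₀ l) = ((min k (l / (i + 1) + 1) : ℕ) : ℝ≥0∞) := by
    intro i l
    rw [comparativeRatio_eq hk hU hS, ceil_eq]
  have e2 : ∀ l, 3 ≤ l → l / (l - 2 + 1) = 1 := by
    intro l hl
    refine Nat.div_eq_of_lt_le ?_ ?_ <;> omega
  have e1 : ∀ l, 3 ≤ l → l / (l - 1 + 1) = 1 := by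
    intro l hl
    rw [show l - 1 + 1 = l by omega]
    exact Nat.div_self (by omega)
  have h3 : ∀ l, 3 ≤ l → comparativeRatio (𝓛 k S₀ (l - 2)) (𝓛 k S₀ l) =
        comparativeRatio (𝓛 k S₀ (l - 1)) (𝓛 k S₀ l) := by
    intro l hl
    rw [key, key, e2 l hl, e1 l hl]
  refine ⟨h3, fun l hl => ⟨fun h => ?_, ?_⟩⟩
  · have h2 : l = 2 := by
      by_contra hne
      have h4 : 3 ≤ l := by omega
      have := h (l - 2) (l - 1) (by omega) (by omega)
      rw [h3 l h4] at this
      exact lt_irrefl _ this
    refine ⟨h2, ?_⟩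
    subst h2
    have := h 0 1 (by omega) (by omega)
    rw [key, key] at this
    have h5 : min k (2 / (1 + 1) + 1) < min k (2 / (0 + 1) + 1) := by exact_mod_cast this
    simp only [Nat.reduceAdd, Nat.reduceDiv] at h5
    omega
  · rintro ⟨rfl, h3⟩ i j hij hj
    have hi : i = 0 := by omega
    have hj : j = 1 := by omega
    subst hi hj
    rw [key, key]
    have : min k (2 / (1 + 1) + 1) < min k (2 / (0 + 1) + 1) := by
      simp only [Nat.reduceAdd, Nat.reduceDiv]
      omega
    exact_mod_cast this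

end Pool.Agent.Results.MP_9bbf37_lc.LookaheadNotStrict
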